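import Pool.Agent.H66.TK.Stm

/-! Project TK (helper66), part ORD: the order of the torsion points. -/

set_option autoImplicit false

open Pool.Agent.Y720.MZ MvPolynomial Height AdmissibleAbsValues Pool.Agent.Q35.TT

namespace Pool.Agent.H64.TK

open Pool.Agent.H66.TK
open Pool.Agent.Q224.TT.Loc (II JJ)

section ring

variable {R : Type} [CommRing R]

/-- the first invariant of the plane cubic `w³ + α(x) w + β(x)` -/
def SS (α : Fin 3 → R) (β : Fin 4 → R) : R :=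
  16 * α 0 ^ 2 * α 2 ^ 2 - 8 * α 0 * α 1 ^ 2 * α 2 + 144 * α 0 * β 1 * β 3 - 48 * α 0 * β 2 ^ 2 +
    α 1 ^ 4 - 216 * α 1 * β 0 * β 3 + 24 * α 1 * β 1 * β 2 + 144 * α 2 * β 0 * β 2 -
    48 * α 2 * β 1 ^ 2

/-- the second invariant of the plane cubic `w³ + α(x) w + β(x)` -/
def TT (α : Fin 3 → R) (β : Fin 4 → R) : R :=
  128 * α 0 ^ 3 * α 2 ^ 3 + 1728 * α 0 ^ 3 * β 3 ^ 2 - 96 * α 0 ^ 2 * α 1 ^ 2 * α 2 ^ 2 -
    1728 * α 0 ^ 2 * α 1 * β 2 * β 3 - 1728 * α 0 ^ 2 * α 2 * β 1 * β 3 +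
    1152 * α 0 ^ 2 * α 2 * β 2 ^ 2 + 24 * α 0 * α 1 ^ 4 * α 2 + 1296 * α 0 * α 1 ^ 2 * β 1 * β 3 +
    144 * α 0 * α 1 ^ 2 * β 2 ^ 2 + 2592 * α 0 * α 1 * α 2 * β 0 * β 3 -
    1440 * α 0 * α 1 * α 2 * β 1 * β 2 - 1728 * α 0 * α 2 ^ 2 * β 0 * β 2 +
    1152 * α 0 * α 2 ^ 2 * β 1 ^ 2 - 2 * α 1 ^ 6 - 1080 * α 1 ^ 3 * β 0 * β 3 -
    72 * α 1 ^ 3 * β 1 * β 2 + 1296 * α 1 ^ 2 * α 2 * β 0 * β 2 + 144 * α 1 ^ 2 * α 2 * β 1 ^ 2 -
    1728 * α 1 * α 2 ^ 2 * β 0 * β 1 + 1728 * α 2 ^ 3 * β 0 ^ 2 + 11664 * β 0 ^ 2 * β 3 ^ 2 -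
    7776 * β 0 * β 1 * β 2 * β 3 + 1728 * β 0 * β 2 ^ 3 + 1728 * β 1 ^ 3 * β 3 -
    432 * β 1 ^ 2 * β 2 ^ 2

end ring

section fld

variable {K : Type} [Field K]

theorem gq0 (α : Fin 3 → K) (β : Fin 4 → K) (w : K) (x : Fin 2 → K) : gq α β w x 0 =
    (α 2 * w + β 2 * x 0 + 3 * β 3 * x 1) ^ 2 - 4 * (c1 α β w x * β 3) := rfl
theorem gq1 (α : Fin 3 → K) (β : Fin 4 → K) (w : K) (x : Fin 2 → K) : gq α β w x 1 =
    2 * (α 1 * x 0 + 2 * α 2 * x 1) * (α 2 * w + β 2 * x 0 + 3 * β 3 * x 1) -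
      4 * (cw α w x * β 3 + c1 α β w x * α 2) := rfl
theorem gq2 (α : Fin 3 → K) (β : Fin 4 → K) (w : K) (x : Fin 2 → K) : gq α β w x 2 =
    (α 1 * x 0 + 2 * α 2 * x 1) ^ 2 + 2 * (3 * w) * (α 2 * w + β 2 * x 0 + 3 * β 3 * x 1) -
      4 * (cw α w x * α 2) := rfl
theorem gq3 (α : Fin 3 → K) (β : Fin 4 → K) (w : K) (x : Fin 2 → K) : gq α β w x 3 =
    2 * (3 * w) * (α 1 * x 0 + 2 * α 2 * x 1) - 4 * c1 α β w x := rfl
theorem gq4 (α : Fin 3 → K) (β : Fin 4 → K) (w : K) (x : Fin 2 → K) : gq α β w x 4 =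
    (3 * w) ^ 2 - 4 * cw α w x := rfl

theorem II_gq (α : Fin 3 → K) (β : Fin 4 → K) (w t : K) (h : cub α β w ![1, t] = 0) :
    II (gq α β w ![1, t]) = SS α β := by
  have h' : w ^ 3 + (α 0 * 1 ^ 2 + α 1 * (1 * t) + α 2 * t ^ 2) * w +
      (β 0 * 1 ^ 3 + β 1 * (1 ^ 2 * t) + β 2 * (1 * t ^ 2) + β 3 * t ^ 3) = 0 := h
  unfold II SS
  rw [gq0, gq1, gq2, gq3, gq4]
  unfold c1 cw q2
  simp only [Matrix.cons_val_zero, Matrix.cons_val_one]
  linear_combination (216 * α 1 * β 3 - 144 * α 2 * β 2) * h'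

theorem JJ_gq (α : Fin 3 → K) (β : Fin 4 → K) (w t : K) (h : cub α β w ![1, t] = 0) :
    JJ (gq α β w ![1, t]) = TT α β := by
  have h' : w ^ 3 + (α 0 * 1 ^ 2 + α 1 * (1 * t) + α 2 * t ^ 2) * w +
      (β 0 * 1 ^ 3 + β 1 * (1 ^ 2 * t) + β 2 * (1 * t ^ 2) + β 3 * t ^ 3) = 0 := h
  unfold JJ TT
  rw [gq0, gq1, gq2, gq3, gq4]
  unfold c1 cw q2
  simp only [Matrix.cons_val_zero, Matrix.cons_val_one]
  linear_combination (-2592 * α 0 * α 1 * α 2 * β 3 + 1728 * α 0 * α 2 ^ 3 * w +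
    1728 * α 0 * α 2 ^ 2 * β 2 + 11664 * α 0 * β 3 ^ 2 * w + 1080 * α 1 ^ 3 * β 3 -
    1296 * α 1 ^ 2 * α 2 * β 2 + 1728 * α 1 * α 2 ^ 3 * w * t + 1728 * α 1 * α 2 ^ 2 * β 1 +
    11664 * α 1 * β 3 ^ 2 * w * t + 1728 * α 2 ^ 4 * w * t ^ 2 - 1728 * α 2 ^ 3 * β 0 +
    1728 * α 2 ^ 3 * β 1 * t + 1728 * α 2 ^ 3 * β 2 * t ^ 2 + 1728 * α 2 ^ 3 * β 3 * t ^ 3 +
    1728 * α 2 ^ 3 * w ^ 3 + 11664 * α 2 * β 3 ^ 2 * w * t ^ 2 - 11664 * β 0 * β 3 ^ 2 +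
    7776 * β 1 * β 2 * β 3 + 11664 * β 1 * β 3 ^ 2 * t - 1728 * β 2 ^ 3 +
    11664 * β 2 * β 3 ^ 2 * t ^ 2 + 11664 * β 3 ^ 3 * t ^ 3 + 11664 * β 3 ^ 2 * w ^ 3) * h'

theorem dc_II (a : Fin 5 → K) (h3 : (3 : K) ≠ 0) :
    dc (a 0) (a 1) (a 2) (a 3) (a 4) = 4 / 27 * II a ^ 3 - 1 / 27 * JJ a ^ 2 := by
  have h27 : (27 : K) ≠ 0 := by
    rw [show (27 : K) = 3 ^ 3 by norm_num]
    exact pow_ne_zero 3 h3
  unfold dc dsc II JJ
  field_simp
  ring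

end fld

/-! ### The discriminant of the fibre as a polynomial -/

section poly

variable {K : Type} [Field K]

/-- the discriminant of the plane cubic over `r = X 1` -/
noncomputable def pD (a : Fin 3 → Fin 3 → K) (b : Fin 4 → Fin 4 → K) : MvPolynomial (Fin 2) K :=
  C (4 / 27) * SS (ax (fun i j => C (a i j)) ![1, X 1]) (bx (fun i j => C (b i j)) ![1, X 1]) ^ 3 -
  C (1 / 27) * TT (ax (fun i j => C (a i j)) ![1, X 1]) (bx (fun i j => C (b i j)) ![1, X 1]) ^ 2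

theorem pD_eval (a : Fin 3 → Fin 3 → K) (b : Fin 4 → Fin 4 → K) (t r : K) :
    eval ![t, r] (pD a b) = 4 / 27 * SS (ax a ![1, r]) (bx b ![1, r]) ^ 3 -
      1 / 27 * TT (ax a ![1, r]) (bx b ![1, r]) ^ 2 := by
  unfold pD SS TT ax bx q2 q3
  simp only [map_add, map_sub, map_mul, map_pow, eval_C, eval_X, map_ofNat, Matrix.cons_val_zero,
    Matrix.cons_val_one, map_one]

end poly

/-! ### Integral elements -/

section int

variable {K : Type} [Field K] {v : AbsoluteValue K ℝ}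

/-- the ring of the elements of absolute value at most one -/
def Ov (hv : IsNonarchimedean v) : Subring K where
  carrier := {x | v x ≤ 1}
  mul_mem' := by
    intro x y hx hy
    simp only [Set.mem_ofPred_eq] at hx hy ⊢
    rw [map_mul]
    exact mul_le_one₀ hx (v.nonneg _) hy
  one_mem' := by simp
  add_mem' := by
    intro x y hx hy
    exact (hv x y).trans (max_le hx hy)
  zero_mem' := by simp
  neg_mem' := by
    intro x hx
    simp only [Set.mem_ofPred_eq] at hx ⊢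
    rw [v.map_neg]
    exact hx

theorem mem_Ov (hv : IsNonarchimedean v) (x : K) : x ∈ Ov hv ↔ v x ≤ 1 := Iff.rfl

theorem w_int (hv : IsNonarchimedean v) {α : Fin 3 → K} {β : Fin 4 → K} {w t : K}
    (hα : ∀ i, v (α i) ≤ 1) (hβ : ∀ i, v (β i) ≤ 1) (ht : v t ≤ 1)
    (h : cub α β w ![1, t] = 0) : v w ≤ 1 := by
  have hq2 : q2 α ![1, t] ∈ Ov hv := by
    unfold q2
    simp only [Matrix.cons_val_zero, Matrix.cons_val_one]
    have h0 : α 0 ∈ Ov hv := hα 0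
    have h1 : α 1 ∈ Ov hv := hα 1
    have h2 : α 2 ∈ Ov hv := hα 2
    have h3 : t ∈ Ov hv := ht
    exact add_mem (add_mem (mul_mem h0 (pow_mem (one_mem _) _))
      (mul_mem h1 (mul_mem (one_mem _) h3))) (mul_mem h2 (pow_mem h3 _))
  have hq3 : q3 β ![1, t] ∈ Ov hv := by
    unfold q3
    simp only [Matrix.cons_val_zero, Matrix.cons_val_one]
    have h0 : β 0 ∈ Ov hv := hβ 0
    have h1 : β 1 ∈ Ov hv := hβ 1
    have h2 : β 2 ∈ Ov hv := hβ 2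
    have h2' : β 3 ∈ Ov hv := hβ 3
    have h3 : t ∈ Ov hv := ht
    have h4 : (1 : K) ∈ Ov hv := one_mem _
    exact add_mem (add_mem (add_mem (mul_mem h0 (pow_mem h4 _))
      (mul_mem h1 (mul_mem (pow_mem h4 _) h3))) (mul_mem h2 (mul_mem h4 (pow_mem h3 _))))
      (mul_mem h2' (pow_mem h3 _))
  rw [mem_Ov] at hq2 hq3
  by_contra hw
  push Not at hw
  have e : w ^ 3 = -(q2 α ![1, t] * w + q3 β ![1, t]) := by
    unfold cub at h
    linear_combination h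
  have h1 := congrArg v e
  rw [map_pow, v.map_neg] at h1
  have h2 : v (q2 α ![1, t] * w + q3 β ![1, t]) ≤ v w := by
    refine (hv _ _).trans (max_le ?_ (hq3.trans hw.le))
    rw [map_mul]
    exact mul_le_of_le_one_left (v.nonneg _) hq2
  have h3 : v w < v w ^ 3 := by
    have : v w ^ 3 = v w * v w ^ 2 := by ring
    rw [this]
    have h4 : 1 < v w ^ 2 := one_lt_pow₀ hw two_ne_zero
    nlinarith
  linarith

theorem gq_int (hv : IsNonarchimedean v) {α : Fin 3 → K} {β : Fin 4 → K} {w t : K}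
    (hα : ∀ i, v (α i) ≤ 1) (hβ : ∀ i, v (β i) ≤ 1) (ht : v t ≤ 1) (hw : v w ≤ 1) (k : Fin 5) :
    v (gq α β w ![1, t] k) ≤ 1 := by
  have key : gq α β w ![1, t] k =
      ((gq (fun i => (⟨α i, hα i⟩ : Ov hv)) (fun i => (⟨β i, hβ i⟩ : Ov hv)) (⟨w, hw⟩ : Ov hv)
        ![1, (⟨t, ht⟩ : Ov hv)] k : Ov hv) : K) := by
    have e2 : ((2 : Ov hv) : K) = 2 := map_ofNat (Ov hv).subtype 2
    have e3 : ((3 : Ov hv) : K) = 3 := map_ofNat (Ov hv).subtype 3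
    have e4 : ((4 : Ov hv) : K) = 4 := map_ofNat (Ov hv).subtype 4
    fin_cases k <;> simp [gq, c1, cw, q2, e2, e3, e4]
  rw [key]
  exact (gq (fun i => (⟨α i, hα i⟩ : Ov hv)) (fun i => (⟨β i, hβ i⟩ : Ov hv)) (⟨w, hw⟩ : Ov hv)
        ![1, (⟨t, ht⟩ : Ov hv)] k : Ov hv).2

end int

theorem glt2 : S_GLT :=
  Pool.Agent.Q79.TT.glt Pool.Agent.Q68.TT.Ext.ext Pool.Agent.Q137.TT.inf_ Pool.Agent.Q121.TT.trn

theorem ord : Pool.Agent.H66.TK.S_ORD := by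
  intro K _ _ a b M
  classical
  obtain ⟨d, hd⟩ : ∃ d : ℕ, ∀ j, (pD a b).degreeOf j ≤ d :=
    ⟨(pD a b).totalDegree, fun j => degreeOf_le_totalDegree _ _⟩
  obtain ⟨C, hC, hsel⟩ := sen2 K 2 (pD a b) (d + 1) (fun j => (hd j).trans (Nat.le_succ d))
    ((pD a b).support.image (fun m => (pD a b).coeff m) ∪
      (Finset.univ.image (fun z : Fin 3 × Fin 3 => a z.1 z.2) ∪
        Finset.univ.image (fun z : Fin 4 × Fin 4 => b z.1 z.2))) M
  refine ⟨max C 1, lt_max_of_lt_left hC, ?_⟩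
  intro w t r n hn hF hFw hTF
  obtain ⟨α, hα⟩ : ∃ α : Fin 3 → K, α = ax a ![1, r] := ⟨_, rfl⟩
  obtain ⟨β, hβ⟩ : ∃ β : Fin 4 → K, β = bx b ![1, r] := ⟨_, rfl⟩
  have hF' : cub α β w ![1, t] = 0 := by rw [hα, hβ]; exact hF
  rw [← hα, ← hβ] at hTF ⊢
  have hH1 : 1 ≤ mulHeight₁ t := one_le_mulHeight₁ t
  have hH2 : 1 ≤ mulHeight₁ r := one_le_mulHeight₁ r
  have hH3 : 1 ≤ mulHeight₁ t * mulHeight₁ r := one_le_mul_of_one_le_of_one_le hH1 hH2
  rcases hTF with hDD | hT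
  · refine ⟨1, one_ne_zero, Or.inl hDD, ?_⟩
    rw [Nat.cast_one, one_pow]
    calc (1 : ℝ) = 1 * 1 := (one_mul 1).symm
      _ ≤ max C 1 * (mulHeight₁ t * mulHeight₁ r) :=
        mul_le_mul (le_max_right _ _) hH3 zero_le_one (le_trans zero_le_one (le_max_right _ _))
  obtain ⟨s, hs⟩ : ∃ s : K, s = -(c1 α β w ![1, t]) / cw α w ![1, t] := ⟨_, rfl⟩
  obtain ⟨A, hA⟩ : ∃ A : Fin 5 → K, A = gq α β w ![1, t] := ⟨_, rfl⟩
  have hTFT : ∀ k, TorT A s k → TF α β w t k := by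
    intro k hk
    right
    rw [← hA, ← hs]
    exact hk
  rw [← hs, ← hA] at hT
  have hg : bq A ![1, s] ≠ 0 := hT.1
  have hT' := hT
  unfold TorT at hT'
  rw [Pool.Agent.Q190.TT.tor_iff A _ s _ n hg] at hT'
  have hdc : dc (A 0) (A 1) (A 2) (A 3) (A 4) ≠ 0 := hT'.2.2.1
  have h3K : (3 : K) ≠ 0 := by norm_num
  have hdcP : dc (A 0) (A 1) (A 2) (A 3) (A 4) = eval ![t, r] (pD a b) := by
    rw [dc_II A h3K, pD_eval, hA, II_gq α β w t hF', JJ_gq α β w t hF', hα, hβ]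
  obtain ⟨v, hvn, p, hG, hS, hvP, F, hFin, ρ, hcard, hρ⟩ := hsel ![t, r] (by
    rw [← hdcP]
    exact hdc)
  have hv := hG.na
  have hle1 : ∀ x : K, (x ≠ 0 → v x = 1) → v x ≤ 1 := by
    intro x hx
    rcases eq_or_ne x 0 with h | h
    · rw [h, map_zero]; exact zero_le_one
    · exact (hx h).le
  -- t and r are integral
  have hmx1 : v (eval ![t, r] (pD a b)) ≤ Pool.Agent.Q192.TT.mx ![t, r] v ^ d := by
    have h1 := Pool.Agent.Q192.TT.poly_na' hv (pD a b) hd ![t, r]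
    have h2 : ∏ e ∈ (pD a b).support, max (v ((pD a b).coeff e)) 1 = 1 := by
      apply Finset.prod_eq_one
      intro e he
      apply max_eq_right
      apply hle1
      intro hne
      exact hS _ (Finset.mem_union_left _ (Finset.mem_image.2 ⟨e, he, rfl⟩)) hne
    rw [h2, one_mul] at h1
    exact h1
  have hmx2 : v (eval ![t, r] (pD a b)) = Pool.Agent.Q192.TT.mx ![t, r] v ^ (d + 1) := by
    rw [hvP]
    unfold Pool.Agent.Q192.TT.mx
    rw [← Finset.prod_pow]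
    simp only [max_comm (1 : ℝ)]
  have hmx3 := Pool.Agent.Q192.TT.one_le_mx ![t, r] v
  have hmx4 : Pool.Agent.Q192.TT.mx ![t, r] v = 1 := by
    apply le_antisymm _ hmx3
    rw [hmx2, pow_succ] at hmx1
    have h5 : 0 < Pool.Agent.Q192.TT.mx ![t, r] v ^ d := by positivity
    by_contra hcon
    push Not at hcon
    nlinarith
  have hmx5 : max (v t) 1 * max (v r) 1 = 1 := by
    have h8 := hmx4
    unfold Pool.Agent.Q192.TT.mx at h8
    rw [Fin.prod_univ_two] at h8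
    exact h8
  have h6 : (1 : ℝ) ≤ max (v t) 1 := le_max_right _ _
  have h7 : (1 : ℝ) ≤ max (v r) 1 := le_max_right _ _
  have ht1 : v t ≤ 1 := by
    have : max (v t) 1 ≤ 1 := by nlinarith
    exact (le_max_left _ _).trans this
  have hr1 : v r ≤ 1 := by
    have : max (v r) 1 ≤ 1 := by nlinarith
    exact (le_max_left _ _).trans this
  have hvdc : v (dc (A 0) (A 1) (A 2) (A 3) (A 4)) = 1 := by
    rw [hdcP, hmx2, hmx4, one_pow]
  -- the coefficients are integral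
  have ha1 : ∀ i j, v (a i j) ≤ 1 := fun i j => hle1 _ fun hne =>
    hS _ (Finset.mem_union_right _ (Finset.mem_union_left _
      (Finset.mem_image.2 ⟨(i, j), Finset.mem_univ _, rfl⟩))) hne
  have hb1 : ∀ i j, v (b i j) ≤ 1 := fun i j => hle1 _ fun hne =>
    hS _ (Finset.mem_union_right _ (Finset.mem_union_right _
      (Finset.mem_image.2 ⟨(i, j), Finset.mem_univ _, rfl⟩))) hne
  have hα1 : ∀ i, v (α i) ≤ 1 := by
    intro i
    rw [hα]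
    unfold ax q2
    simp only [Matrix.cons_val_zero, Matrix.cons_val_one]
    rw [← mem_Ov hv]
    have h0 : a i 0 ∈ Ov hv := ha1 i 0
    have h1 : a i 1 ∈ Ov hv := ha1 i 1
    have h2 : a i 2 ∈ Ov hv := ha1 i 2
    have h3 : r ∈ Ov hv := hr1
    exact add_mem (add_mem (mul_mem h0 (pow_mem (one_mem _) _))
      (mul_mem h1 (mul_mem (one_mem _) h3))) (mul_mem h2 (pow_mem h3 _))
  have hβ1 : ∀ i, v (β i) ≤ 1 := by
    intro i
    rw [hβ]
    unfold bx q3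
    simp only [Matrix.cons_val_zero, Matrix.cons_val_one]
    rw [← mem_Ov hv]
    have h0 : b i 0 ∈ Ov hv := hb1 i 0
    have h1 : b i 1 ∈ Ov hv := hb1 i 1
    have h2 : b i 2 ∈ Ov hv := hb1 i 2
    have h2' : b i 3 ∈ Ov hv := hb1 i 3
    have h3 : r ∈ Ov hv := hr1
    have h4 : (1 : K) ∈ Ov hv := one_mem _
    exact add_mem (add_mem (add_mem (mul_mem h0 (pow_mem h4 _))
      (mul_mem h1 (mul_mem (pow_mem h4 _) h3))) (mul_mem h2 (mul_mem h4 (pow_mem h3 _))))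
      (mul_mem h2' (pow_mem h3 _))
  have hw1 : v w ≤ 1 := w_int hv hα1 hβ1 ht1 hF'
  have hAi : ∀ k, v (A k) ≤ 1 := by
    intro k
    rw [hA]
    exact gq_int hv hα1 hβ1 ht1 hw1 k
  have e2 : v (2 : K) = 1 := by
    have := hG.unit 2 (by norm_num) (by have := hG.p5; omega)
    exact_mod_cast this
  have e3 : v (3 : K) = 1 := by
    have := hG.unit 3 (by norm_num) (by have := hG.p5; omega)
    exact_mod_cast this
  obtain ⟨hdd, x', y', hiff⟩ := Pool.Agent.Q53.TT.ORN.key Pool.Agent.Q121.TT.trn A 1 s one_ne_zero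
    hg hdc
  have vb : v (-II A / (3 * 1 ^ 8)) ≤ 1 := by
    rw [map_div₀, v.map_neg, map_mul, map_pow, e3, one_mul, map_one, one_pow, div_one]
    refine (Pool.Agent.Q224.TT.Loc.vII' v hv A _ hAi).trans (le_of_eq ?_)
    ring
  have vc : v (-JJ A / (27 * 1 ^ 12)) ≤ 1 := by
    have h27 : v 27 = 1 := by
      rw [show (27 : K) = 3 ^ 3 by norm_num, map_pow, e3, one_pow]
    rw [map_div₀, v.map_neg, map_mul, map_pow, h27, one_mul, map_one, one_pow, div_one]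
    refine (Pool.Agent.Q224.TT.Loc.vJJ' v hv A _ hAi).trans (le_of_eq ?_)
    ring
  have vd : v (dsc 0 (-II A / (3 * 1 ^ 8)) (-JJ A / (27 * 1 ^ 12))) = 1 := by
    rw [hdd, map_div₀, hvdc, one_pow, map_one, div_one]
  obtain ⟨N', hN', hTN', hle⟩ := Pool.Agent.Q53.TT.ORN.order_bound hv e2 (glt2 K v p hG) vb vc vd
    hg hn ((hiff n).1 hT) ρ hρ
  refine ⟨N', hN', hTFT N' ((hiff N').2 hTN'), ?_⟩
  rw [Fin.prod_univ_two] at hcard
  refine le_trans (le_trans (pow_le_pow_left₀ (Nat.cast_nonneg _) (by exact_mod_cast hle) M)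
    hcard) ?_
  refine mul_le_mul_of_nonneg_right (le_max_left _ _) ?_
  exact le_trans zero_le_one hH3

end Pool.Agent.H64.TK
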