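import Pool.Agent.H66.TK.Stm

/-! Project TK (helper66), part PRD: the product formula. -/

set_option autoImplicit false

open Height AdmissibleAbsValues Function

namespace Pool.Agent.H64.TK

open Pool.Agent.Q237.TT (fms_max)

section
variable {K : Type*} [Field K] [AdmissibleAbsValues K]

theorem prd_aux (C : AbsoluteValue K ℝ → ℝ) (hC : ∀ v, 1 ≤ C v)
    (hf : {v : AbsoluteValue K ℝ | v ∈ nonarchAbsVal (K := K) ∧ C v ≠ 1}.Finite) :
    ∃ D : ℝ, 0 < D ∧ ∀ (e u t r : K) (a b : ℕ) (N : ℝ), e ≠ 0 → u ≠ 0 → 1 ≤ N →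
      (∀ v ∈ archAbsVal (K := K), v e * max 1 (v t) ^ a * max 1 (v r) ^ b ≤ C v * N * v u) →
      (∀ v ∈ nonarchAbsVal (K := K), v e * max 1 (v t) ^ a * max 1 (v r) ^ b ≤ C v * v u) →
      mulHeight₁ t ^ a * mulHeight₁ r ^ b ≤ D * N ^ totalWeight K := by
  have hCf : (fun v : nonarchAbsVal (K := K) ↦ C v.val).HasFiniteMulSupport := by
    refine (hf.preimage (f := fun v : nonarchAbsVal (K := K) ↦ v.val)
      Subtype.val_injective.injOn).subset ?_
    intro v hv
    exact ⟨v.2, hv⟩
  refine ⟨((archAbsVal (K := K)).map C).prod * ∏ᶠ v : nonarchAbsVal (K := K), C v.val, ?_, ?_⟩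
  · have h1 : 1 ≤ ((archAbsVal (K := K)).map C).prod := Multiset.one_le_prod_map fun v _ ↦ hC v
    have h2 : 1 ≤ ∏ᶠ v : nonarchAbsVal (K := K), C v.val := one_le_finprod fun v ↦ hC v.val
    exact mul_pos (by linarith) (by linarith)
  intro e u t r a b N he hu hN h1 h2
  have hu' := product_formula hu
  have he' := product_formula he
  have ht := fms_max t
  have hr := fms_max r
  have e1 : (archAbsVal.map fun v : AbsoluteValue K ℝ ↦
        v e * max 1 (v t) ^ a * max 1 (v r) ^ b).prod ≤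
      (archAbsVal.map fun v : AbsoluteValue K ℝ ↦ C v * N * v u).prod := by
    refine Multiset.prod_map_le_prod_map₀ _ _ (fun v _ ↦ by positivity) fun v hv ↦ h1 v hv
  have hfl : (fun v : nonarchAbsVal (K := K) ↦
      v.val e * max 1 (v.val t) ^ a * max 1 (v.val r) ^ b).HasFiniteMulSupport :=
    ((hasFiniteMulSupport he).mul (ht.pow a)).mul (hr.pow b)
  have e2 : (∏ᶠ v : nonarchAbsVal (K := K),
        v.val e * max 1 (v.val t) ^ a * max 1 (v.val r) ^ b) ≤
      ∏ᶠ v : nonarchAbsVal (K := K), (C v.val * v.val u) := by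
    refine finprod_le_finprod hfl (fun v ↦ by positivity) ?_ (fun v ↦ h2 v.val v.2)
    exact hCf.mul (hasFiniteMulSupport hu)
  have e3 : (archAbsVal.map fun v : AbsoluteValue K ℝ ↦ C v * N * v u).prod =
      ((archAbsVal (K := K)).map C).prod * N ^ totalWeight K * (archAbsVal.map (· u)).prod := by
    rw [Multiset.prod_map_mul, Multiset.prod_map_mul, Multiset.map_const', Multiset.prod_replicate]
    rfl
  have e3' : (archAbsVal.map fun v : AbsoluteValue K ℝ ↦
        v e * max 1 (v t) ^ a * max 1 (v r) ^ b).prod =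
      (archAbsVal.map (· e)).prod *
        (archAbsVal.map fun v : AbsoluteValue K ℝ ↦ max (v t) 1).prod ^ a *
        (archAbsVal.map fun v : AbsoluteValue K ℝ ↦ max (v r) 1).prod ^ b := by
    rw [Multiset.prod_map_mul, Multiset.prod_map_mul, Multiset.prod_map_pow,
      Multiset.prod_map_pow]
    simp only [max_comm (1 : ℝ)]
  have e4 : (∏ᶠ v : nonarchAbsVal (K := K), (C v.val * v.val u)) =
      (∏ᶠ v : nonarchAbsVal (K := K), C v.val) * (∏ᶠ v : nonarchAbsVal (K := K), v.val u) :=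
    finprod_mul_distrib hCf (hasFiniteMulSupport hu)
  have e4' : (∏ᶠ v : nonarchAbsVal (K := K),
        v.val e * max 1 (v.val t) ^ a * max 1 (v.val r) ^ b) =
      (∏ᶠ v : nonarchAbsVal (K := K), v.val e) *
        (∏ᶠ v : nonarchAbsVal (K := K), max (v.val t) 1) ^ a *
        (∏ᶠ v : nonarchAbsVal (K := K), max (v.val r) 1) ^ b := by
    have g1 := finprod_mul_distrib ((hasFiniteMulSupport he).mul (ht.pow a)) (hr.pow b)
    have g2 := finprod_mul_distrib (hasFiniteMulSupport he) (ht.pow a)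
    have g3 := finprod_pow ht a
    have g4 := finprod_pow hr b
    simp only [Pi.mul_apply, Pi.pow_apply] at g1 g2 g3 g4
    rw [g1, g2, ← g3, ← g4]
    simp only [max_comm (1 : ℝ)]
  have e5 : 0 ≤ ∏ᶠ v : nonarchAbsVal (K := K),
        v.val e * max 1 (v.val t) ^ a * max 1 (v.val r) ^ b :=
    finprod_nonneg fun v ↦ by positivity
  have e6 : 0 ≤ (archAbsVal.map fun v : AbsoluteValue K ℝ ↦ C v * N * v u).prod := by
    refine Multiset.prod_map_nonneg fun v _ ↦ ?_
    have := hC v
    positivity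
  have e7 := mul_le_mul e1 e2 e5 e6
  rw [e3, e3', e4, e4'] at e7
  rw [mulHeight₁_eq, mulHeight₁_eq, mul_pow, mul_pow]
  calc _ = (archAbsVal.map (· e)).prod *
        (archAbsVal.map fun v : AbsoluteValue K ℝ ↦ max (v t) 1).prod ^ a *
        (archAbsVal.map fun v : AbsoluteValue K ℝ ↦ max (v r) 1).prod ^ b *
        ((∏ᶠ v : nonarchAbsVal (K := K), v.val e) *
        (∏ᶠ v : nonarchAbsVal (K := K), max (v.val t) 1) ^ a *
        (∏ᶠ v : nonarchAbsVal (K := K), max (v.val r) 1) ^ b) := by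
        linear_combination (-(archAbsVal.map fun v : AbsoluteValue K ℝ ↦ max (v t) 1).prod ^ a *
          (archAbsVal.map fun v : AbsoluteValue K ℝ ↦ max (v r) 1).prod ^ b *
          (∏ᶠ v : nonarchAbsVal (K := K), max (v.val t) 1) ^ a *
          (∏ᶠ v : nonarchAbsVal (K := K), max (v.val r) 1) ^ b) * he'
    _ ≤ _ := e7
    _ = _ := by
        linear_combination (((archAbsVal (K := K)).map C).prod * N ^ totalWeight K *
          (∏ᶠ v : nonarchAbsVal (K := K), C v.val)) * hu'

end

theorem prd : Pool.Agent.H66.TK.S_PRD := by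
  intro K _ _ C hC
  exact prd_aux C hC.one_le hC.fin

end Pool.Agent.H64.TK
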